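import Pool.Agent.FLG.M.Mono

/-!
# FLG-M-Uniq: uniqueness for `dY/dw = (θ - e^{-w} E) Y`, and non-degeneracy
-/

open scoped BigOperators Topology
open Filter

namespace Pool.Agent.FLG.Mo

variable {N : ℕ} {X : MS (Fin N)}

/-- Entrywise solutions of `dΔ/dw = A(w) Δ` which vanish at a point vanish identically. -/
private theorem lin_zero {Δ A : ℂ → Matrix (Fin N) (Fin N) ℂ}
    (hΔ : ∀ w i j, HasDerivAt (fun w => Δ w i j) ((A w * Δ w) i j) w)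
    (hA : ∀ R : ℝ, ∃ B : ℝ, 0 ≤ B ∧ ∀ w, ‖w‖ ≤ R → ∀ i j, ‖A w i j‖ ≤ B)
    {w₀ : ℂ} (h0 : Δ w₀ = 0) (w : ℂ) : Δ w = 0 := by
  obtain ⟨B, hB0, hB⟩ := hA (‖w₀‖ + ‖w - w₀‖)
  ext i₀ j
  obtain ⟨f, hf⟩ : ∃ f : ℝ → Fin N → ℂ,
      f = fun τ : ℝ => fun i => Δ (w₀ + (τ : ℂ) * (w - w₀)) i j := ⟨_, rfl⟩
  obtain ⟨f', hf'⟩ : ∃ f' : ℝ → Fin N → ℂ, f' = fun τ : ℝ => fun i =>
      (A (w₀ + (τ : ℂ) * (w - w₀)) * Δ (w₀ + (τ : ℂ) * (w - w₀))) i j * (w - w₀) := ⟨_, rfl⟩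
  have hnorm : ∀ τ ∈ Set.Icc (0 : ℝ) 1, ‖w₀ + (τ : ℂ) * (w - w₀)‖ ≤ ‖w₀‖ + ‖w - w₀‖ := by
    intro τ hτ
    refine (norm_add_le _ _).trans ?_
    rw [norm_mul, Complex.norm_real, Real.norm_of_nonneg hτ.1]
    have := norm_nonneg (w - w₀)
    nlinarith [hτ.2]
  have hder : ∀ τ ∈ Set.Icc (0 : ℝ) 1, HasDerivAt f (f' τ) τ := by
    intro τ _
    rw [hf, hf']
    refine hasDerivAt_pi.2 fun i => ?_
    have h2 : HasDerivAt (fun τ : ℝ => w₀ + (τ : ℂ) * (w - w₀)) (w - w₀) τ := by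
      have h4 : HasDerivAt (fun τ : ℝ => (τ : ℂ)) 1 τ := Complex.ofRealCLM.hasDerivAt
      have h5 := (h4.mul_const (w - w₀)).const_add w₀
      rw [one_mul] at h5
      exact h5
    exact (hΔ _ i j).comp τ h2
  have hbound : ∀ τ ∈ Set.Icc (0 : ℝ) 1, ‖f' τ‖ ≤ (N * B * ‖w - w₀‖) * ‖f τ‖ := by
    intro τ hτ
    rw [hf']
    refine (pi_norm_le_iff_of_nonneg (by positivity)).2 fun i => ?_
    rw [norm_mul]
    have h2 : ‖(A (w₀ + (τ : ℂ) * (w - w₀)) * Δ (w₀ + (τ : ℂ) * (w - w₀))) i j‖ ≤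
        N * B * ‖f τ‖ := by
      rw [Matrix.mul_apply]
      refine (norm_sum_le _ _).trans ?_
      have h3 : ∀ l ∈ (Finset.univ : Finset (Fin N)),
          ‖A (w₀ + (τ : ℂ) * (w - w₀)) i l * Δ (w₀ + (τ : ℂ) * (w - w₀)) l j‖ ≤ B * ‖f τ‖ := by
        intro l _
        rw [norm_mul]
        have h4 : ‖Δ (w₀ + (τ : ℂ) * (w - w₀)) l j‖ ≤ ‖f τ‖ := by
          have := norm_le_pi_norm (f τ) l
          rw [hf] at this ⊢
          exact this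
        exact mul_le_mul (hB _ (hnorm τ hτ) i l) h4 (norm_nonneg _) hB0
      refine (Finset.sum_le_sum h3).trans (le_of_eq ?_)
      rw [Finset.sum_const, Finset.card_univ, Fintype.card_fin, nsmul_eq_mul]
      ring
    calc ‖(A (w₀ + (τ : ℂ) * (w - w₀)) * Δ (w₀ + (τ : ℂ) * (w - w₀))) i j‖ * ‖w - w₀‖
        ≤ (N * B * ‖f τ‖) * ‖w - w₀‖ := mul_le_mul_of_nonneg_right h2 (norm_nonneg _)
      _ = _ := by ring
  have hf0 : f 0 = 0 := by
    rw [hf]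
    ext i
    show Δ (w₀ + ((0 : ℝ) : ℂ) * (w - w₀)) i j = 0
    rw [Complex.ofReal_zero, zero_mul, add_zero, h0]
    rfl
  have hzero := eq_zero_of_abs_deriv_le_mul_abs_self_of_eq_zero_right (f := f) (f' := f')
    (K := N * B * ‖w - w₀‖) (a := 0) (b := 1)
    (fun τ hτ => (hder τ hτ).continuousAt.continuousWithinAt)
    (fun τ hτ => (hder τ ⟨hτ.1, hτ.2.le⟩).hasDerivWithinAt) hf0
    (fun τ hτ => hbound τ ⟨hτ.1, hτ.2.le⟩) 1 ⟨zero_le_one, le_refl _⟩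
  rw [hf] at hzero
  have h1 := congrFun hzero i₀
  have h2 : w₀ + ((1 : ℝ) : ℂ) * (w - w₀) = w := by push_cast; ring
  have h3 : Δ (w₀ + ((1 : ℝ) : ℂ) * (w - w₀)) i₀ j = 0 := h1
  rw [h2] at h3
  exact h3

theorem sol_eq {Y Z : ℂ → Matrix (Fin N) (Fin N) ℂ} (hY : X.Sol Y)
    (hZ : X.Sol Z) {w₀ : ℂ} (h : (Y w₀).det ≠ 0) :
    ∃ K : Matrix (Fin N) (Fin N) ℂ, ∀ w, Z w = Y w * K := by
  refine ⟨(Y w₀)⁻¹ * Z w₀, fun w => ?_⟩
  set K : Matrix (Fin N) (Fin N) ℂ := (Y w₀)⁻¹ * Z w₀ with hK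
  have hΔ : ∀ w i j, HasDerivAt (fun w => (Z w - Y w * K) i j)
      (((X.θ - Complex.exp (-w) • X.E) * (Z w - Y w * K)) i j) w := by
    intro w i j
    have h1 : HasDerivAt (fun w => Z w i j - ∑ l, Y w i l * K l j)
        (((X.θ - Complex.exp (-w) • X.E) * Z w) i j -
          ∑ l, ((X.θ - Complex.exp (-w) • X.E) * Y w) i l * K l j) w :=
      (hZ w i j).sub (HasDerivAt.fun_sum fun l _ => (hY w i l).mul_const (K l j))
    have h2 : ((X.θ - Complex.exp (-w) • X.E) * (Z w - Y w * K)) i j =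
        ((X.θ - Complex.exp (-w) • X.E) * Z w) i j -
          ∑ l, ((X.θ - Complex.exp (-w) • X.E) * Y w) i l * K l j := by
      rw [Matrix.mul_sub, Matrix.sub_apply, ← Matrix.mul_assoc]
      rw [Matrix.mul_apply (M := (X.θ - Complex.exp (-w) • X.E) * Y w)]
    rw [h2]
    exact h1
  have hA : ∀ R : ℝ, ∃ B : ℝ, 0 ≤ B ∧ ∀ w : ℂ, ‖w‖ ≤ R → ∀ i j,
      ‖(X.θ - Complex.exp (-w) • X.E) i j‖ ≤ B := by
    intro R
    refine ⟨∑ i, ∑ j, (‖X.θ i j‖ + Real.exp R * ‖X.E i j‖),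
      Finset.sum_nonneg fun i _ => Finset.sum_nonneg fun j _ => by positivity,
      fun w hw i j => ?_⟩
    have h1 : ‖(X.θ - Complex.exp (-w) • X.E) i j‖ ≤
        ‖X.θ i j‖ + Real.exp R * ‖X.E i j‖ := by
      rw [Matrix.sub_apply, Matrix.smul_apply, smul_eq_mul]
      refine (norm_sub_le _ _).trans ?_
      rw [norm_mul, Complex.norm_exp]
      have h2 : (-w).re ≤ R := (Complex.re_le_norm _).trans (by rw [norm_neg]; exact hw)
      have h3 : Real.exp (-w).re ≤ Real.exp R := Real.exp_le_exp.mpr h2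
      have h4 := mul_le_mul_of_nonneg_right h3 (norm_nonneg (X.E i j))
      linarith
    refine h1.trans ?_
    refine le_trans ?_ (Finset.single_le_sum
      (f := fun i => ∑ j, (‖X.θ i j‖ + Real.exp R * ‖X.E i j‖))
      (fun i _ => Finset.sum_nonneg fun j _ => by positivity) (Finset.mem_univ i))
    exact Finset.single_le_sum
      (f := fun j => (‖X.θ i j‖ + Real.exp R * ‖X.E i j‖))
      (fun j _ => by positivity) (Finset.mem_univ j)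
  have h0 : Z w₀ - Y w₀ * K = 0 := by
    rw [hK, ← Matrix.mul_assoc, Matrix.mul_nonsing_inv _ (isUnit_iff_ne_zero.mpr h),
      Matrix.one_mul, sub_self]
  have := lin_zero (Δ := fun w => Z w - Y w * K)
    (A := fun w => X.θ - Complex.exp (-w) • X.E) hΔ hA h0 w
  exact sub_eq_zero.mp this

theorem asym_det {u : Fin N → ℂ} {Ψ : Matrix (Fin N) (Fin N) ℂ} (hΨ : Ψ.det ≠ 0) {α β : ℝ}
    (hαβ : α < β) {Y : ℂ → Matrix (Fin N) (Fin N) ℂ} (hY : Asym u Ψ α β Y) :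
    ∃ w, (Y w).det ≠ 0 := by
  have h1 := hY ((α + β) / 2) ⟨by linarith, by linarith⟩
  have hc : Continuous fun M : Matrix (Fin N) (Fin N) ℂ => M.det := continuous_id.matrix_det
  have h2 := (hc.tendsto Ψ).comp h1
  obtain ⟨s, hs⟩ := (h2.eventually_ne hΨ).exists
  refine ⟨(s : ℂ) + ((α + β) / 2 : ℝ) * Complex.I, fun h0 => hs ?_⟩
  show (Y _ * _ : Matrix (Fin N) (Fin N) ℂ).det = 0
  rw [Matrix.det_mul, h0, zero_mul]

theorem cal_det {𝒮 : ℂ → Matrix (Fin N) (Fin N) ℂ}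
    (h : Tendsto 𝒮 (Bornology.cobounded ℂ) (𝓝 1)) : ∃ w, (X.zSol 𝒮 w).det ≠ 0 := by
  have hc : Continuous fun M : Matrix (Fin N) (Fin N) ℂ => M.det := continuous_id.matrix_det
  have h2 := (hc.tendsto 1).comp h
  rw [Matrix.det_one] at h2
  obtain ⟨z, hz, hz0⟩ := ((h2.eventually_ne one_ne_zero).and
    (Bornology.eventually_ne_cobounded (0 : ℂ))).exists
  refine ⟨Complex.log z, ?_⟩
  unfold MS.zSol
  rw [Complex.exp_log hz0, Matrix.det_mul, Matrix.det_mul]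
  have hu : ∀ M : Matrix (Fin N) (Fin N) ℂ, (NormedSpace.exp M).det ≠ 0 := fun M =>
    ((Matrix.isUnit_iff_isUnit_det _).mp (Matrix.isUnit_exp M)).ne_zero
  exact mul_ne_zero (mul_ne_zero hz (hu _)) (hu _)

end Pool.Agent.FLG.Mo
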