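import Pool.Agent.DST.EFrob
import Pool.Agent.DST.ESol
import Pool.Agent.FLG.M.Uniq
import Pool.Agent.Helper7.DubStokes.Alg

/-!
# FLG-M-Cal: the calibration
-/

open scoped BigOperators Topology
open Filter

namespace Pool.Agent.FLG.Mo

open Pool.Agent.DST

variable {N : ℕ}

theorem exists_cal (X : MS (Fin N)) (C : ℕ → Matrix (Fin N) (Fin N) ℂ) (K : ℕ) (hC0 : C 0 = X.ρ)
    (hC : ∀ d i j, C d i j ≠ 0 → X.deg i + d = X.deg j + 1) (hK : ∀ d, K < d → C d = 0)
    (hE : X.E = ∑ d ∈ Finset.range (K + 1), C d) :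
    ∃ 𝒮 : ℂ → Matrix (Fin N) (Fin N) ℂ, Tendsto 𝒮 (Bornology.cobounded ℂ) (𝓝 1) ∧
      X.Sol (X.zSol 𝒮) := by
  obtain ⟨H, hH0, hrec, hdeg, hb⟩ := exists_frob X.deg C hC
  refine ⟨calS X.deg H, calS_lim hH0 hdeg hb, ?_⟩
  intro w i j
  have h1 := calS_sol hC hK hrec hb ((X.dim : ℂ) / 2) w i j
  rw [hC0, ← hE] at h1
  exact h1

private theorem det_exp_ne (M : Matrix (Fin N) (Fin N) ℂ) : (NormedSpace.exp M).det ≠ 0 :=
  ((Matrix.isUnit_iff_isUnit_det _).mp (Matrix.isUnit_exp M)).ne_zero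

/-- Monodromy of a solution `z^θ P(z) z^{-ρ}`. -/
private theorem mon (X : MS (Fin N)) (P : ℂ → Matrix (Fin N) (Fin N) ℂ) (w : ℂ) :
    NormedSpace.exp ((w + 2 * Real.pi * Complex.I) • X.θ) *
        P (Complex.exp (w + 2 * Real.pi * Complex.I)) *
        NormedSpace.exp (-(w + 2 * Real.pi * Complex.I) • X.ρ) =
      ((-1 : ℂ) ^ X.dim) • (NormedSpace.exp (w • X.θ) * P (Complex.exp w) *
        NormedSpace.exp (-w • X.ρ) * NormedSpace.exp ((-(2 * Real.pi * Complex.I)) • X.ρ)) := by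
  rw [show Complex.exp (w + 2 * Real.pi * Complex.I) = Complex.exp w by
    rw [Complex.exp_add, Complex.exp_two_pi_mul_I, mul_one]]
  have h1 : NormedSpace.exp ((w + 2 * Real.pi * Complex.I) • X.θ) =
      ((-1 : ℂ) ^ X.dim) • NormedSpace.exp (w • X.θ) := by
    rw [add_smul, Matrix.exp_add_of_commute _ _ (((Commute.refl _).smul_left _).smul_right _),
      theta_comm_exp, Matrix.mul_smul, Matrix.mul_one]
  have h2 : NormedSpace.exp (-(w + 2 * Real.pi * Complex.I) • X.ρ) =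
      NormedSpace.exp (-w • X.ρ) *
        NormedSpace.exp ((-(2 * Real.pi * Complex.I)) • X.ρ) := by
    rw [neg_add, add_smul,
      Matrix.exp_add_of_commute _ _ (((Commute.refl _).smul_left _).smul_right _)]
  rw [h1, h2, Matrix.smul_mul, Matrix.smul_mul]
  simp only [Matrix.mul_assoc]

/-- Two normalisations of the calibrated solution differ by an operator which commutes with `ρ`. -/
theorem cal_compare (X : MS (Fin N)) {𝒮 : ℂ → Matrix (Fin N) (Fin N) ℂ}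
    (h𝒮 : Tendsto 𝒮 (Bornology.cobounded ℂ) (𝓝 1)) (hsol : X.Sol (X.zSol 𝒮))
    (P : ℂ → Matrix (Fin N) (Fin N) ℂ)
    (hP : X.Sol fun w => NormedSpace.exp (w • X.θ) * P (Complex.exp w) *
      NormedSpace.exp (-w • X.ρ))
    (hPd : ∃ z, z ≠ 0 ∧ (P z).det ≠ 0) :
    ∃ K : Matrix (Fin N) (Fin N) ℂ, K * X.ρ = X.ρ * K ∧ K.det ≠ 0 ∧
      ∀ w, X.zSol 𝒮 w = NormedSpace.exp (w • X.θ) * P (Complex.exp w) *
        NormedSpace.exp (-w • X.ρ) * K := by
  obtain ⟨z, hz, hPz⟩ := hPd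
  have hw : (NormedSpace.exp (Complex.log z • X.θ) * P (Complex.exp (Complex.log z)) *
      NormedSpace.exp (-Complex.log z • X.ρ)).det ≠ 0 := by
    rw [Complex.exp_log hz, Matrix.det_mul, Matrix.det_mul]
    exact mul_ne_zero (mul_ne_zero (det_exp_ne _) hPz) (det_exp_ne _)
  obtain ⟨K, hK⟩ := sol_eq (Y := fun w => NormedSpace.exp (w • X.θ) * P (Complex.exp w) *
      NormedSpace.exp (-w • X.ρ)) hP hsol (w₀ := Complex.log z) hw
  obtain ⟨w₁, hw₁⟩ := cal_det (X := X) h𝒮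
  have hKd : K.det ≠ 0 := by
    intro h0
    apply hw₁
    rw [hK w₁, Matrix.det_mul, h0, mul_zero]
  refine ⟨K, ?_, hKd, hK⟩
  have h1 := hK (Complex.log z + 2 * Real.pi * Complex.I)
  have hm : X.zSol 𝒮 (Complex.log z + 2 * Real.pi * Complex.I) = ((-1 : ℂ) ^ X.dim) •
      (X.zSol 𝒮 (Complex.log z) * NormedSpace.exp ((-(2 * Real.pi * Complex.I)) • X.ρ)) :=
    zSol_add X 𝒮 (Complex.log z)
  have hm' := mon X P (Complex.log z)
  rw [hm, hm', hK, Matrix.smul_mul] at h1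
  have hs : ((-1 : ℂ) ^ X.dim) ≠ 0 := pow_ne_zero _ (by norm_num)
  have h2 := smul_right_injective _ hs h1
  have hu : IsUnit (NormedSpace.exp (Complex.log z • X.θ) * P (Complex.exp (Complex.log z)) *
      NormedSpace.exp (-Complex.log z • X.ρ)) :=
    (Matrix.isUnit_iff_isUnit_det _).2 (isUnit_iff_ne_zero.2 hw)
  have h3 : NormedSpace.exp ((-(2 * Real.pi * Complex.I)) • X.ρ) * K =
      K * NormedSpace.exp ((-(2 * Real.pi * Complex.I)) • X.ρ) := by
    apply hu.mul_left_cancel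
    have h4 := h2
    simp only [Matrix.mul_assoc] at h4 ⊢
    exact h4.symm
  have hn : ((-(2 * Real.pi * Complex.I)) • X.ρ) ^ nil X = 0 := by
    rw [smul_pow, rho_pow_nil, smul_zero]
  have h5 := Pool.Agent.Helper7.DubStokes.intertwine_of_exp _ _ _ _ hn hn h3
  rw [Matrix.smul_mul, Matrix.mul_smul] at h5
  have hc : (-(2 * Real.pi * Complex.I)) ≠ 0 := neg_ne_zero.2 Complex.two_pi_I_ne_zero
  exact (smul_right_injective _ hc h5).symm

end Pool.Agent.FLG.Mo
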