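import Pool.Agent.DST.EOrd
import Pool.Agent.DST.EPsi
import Pool.Agent.FLG.M.Uniq

/-!
# FLG-M-Ex: construction of the monodromy data
-/

open scoped BigOperators Topology
open Filter

namespace Pool.Agent.FLG.Mo

open Pool.Agent.DST

variable {N : ℕ} {X : MS (Fin N)}

private theorem ed_exp1 (φ : ℝ) : Complex.exp (-((φ + Real.pi / 2 : ℝ) : ℂ) * Complex.I) =
    -Complex.I * Complex.exp (-φ * Complex.I) := by
  rw [show -((φ + Real.pi / 2 : ℝ) : ℂ) * Complex.I = -(Real.pi / 2 * Complex.I) + -φ * Complex.I by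
    push_cast; ring, Complex.exp_add, Complex.exp_neg, Complex.exp_pi_div_two_mul_I, Complex.inv_I]

private theorem ed_exp2 (φ : ℝ) : Complex.exp (-((φ - Real.pi / 2 : ℝ) : ℂ) * Complex.I) =
    Complex.I * Complex.exp (-φ * Complex.I) := by
  rw [show -((φ - Real.pi / 2 : ℝ) : ℂ) * Complex.I = Real.pi / 2 * Complex.I + -φ * Complex.I by
    push_cast; ring, Complex.exp_add, Complex.exp_pi_div_two_mul_I]

private theorem ed_adm1 {a : ℂ} {φ : ℝ} (h : (a * Complex.exp (-φ * Complex.I)).re ≠ 0) :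
    (a * Complex.exp (-((φ + Real.pi / 2 : ℝ) : ℂ) * Complex.I)).im ≠ 0 := by
  rw [ed_exp1, show a * (-Complex.I * Complex.exp (-φ * Complex.I)) =
    -(Complex.I * (a * Complex.exp (-φ * Complex.I))) by ring, Complex.neg_im, Complex.I_mul_im]
  exact neg_ne_zero.2 h

private theorem ed_adm2 {a : ℂ} {φ : ℝ} (h : (a * Complex.exp (-φ * Complex.I)).re ≠ 0) :
    (a * Complex.exp (-((φ - Real.pi / 2 : ℝ) : ℂ) * Complex.I)).im ≠ 0 := by
  rw [ed_exp2, show a * (Complex.I * Complex.exp (-φ * Complex.I)) =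
    Complex.I * (a * Complex.exp (-φ * Complex.I)) by ring, Complex.I_mul_im]
  exact h

private theorem ed_mul {J₀ : ℂ → Matrix (Fin N) (Fin N) ℂ} (hJ : X.Sol J₀)
    (V : Matrix (Fin N) (Fin N) ℂ) : X.Sol (fun w => J₀ w * V) := by
  intro w i j
  have h1 : HasDerivAt (fun w => ∑ k, J₀ w i k * V k j)
      (∑ k, ((X.θ - Complex.exp (-w) • X.E) * J₀ w) i k * V k j) w :=
    HasDerivAt.fun_sum fun k _ => (hJ w i k).mul_const _
  have h2 : (fun w => (J₀ w * V) i j) = fun w => ∑ k, J₀ w i k * V k j := by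
    funext w
    exact Matrix.mul_apply
  show HasDerivAt (fun w => (J₀ w * V) i j)
    (((X.θ - Complex.exp (-w) • X.E) * (J₀ w * V)) i j) w
  rw [h2, ← Matrix.mul_assoc, Matrix.mul_apply]
  exact h1

theorem data_of (hsep : (X.E).charpoly.Separable) {φ : ℝ}
    (hφ : ∀ x y, (X.E).charpoly.IsRoot x → (X.E).charpoly.IsRoot y → x ≠ y →
      ((x - y) * Complex.exp (-φ * Complex.I)).re ≠ 0)
    {J₀ : ℂ → Matrix (Fin N) (Fin N) ℂ}
    (hJ : X.Sol J₀)
    (hchain : ∀ (u : Fin N → ℂ) (Ψ : Matrix (Fin N) (Fin N) ℂ) (φ : ℝ),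
      X.E * Ψ = Ψ * Matrix.diagonal u → Ψ.transpose * X.g * Ψ = 1 →
      (∀ i j, i ≠ j → ((u i - u j) * Complex.exp (-φ * Complex.I)).im ≠ 0) →
      ∃ U : Matrix (Fin N) (Fin N) ℤ, ∃ ε > 0,
        ∀ φ' ∈ Set.Ioo (φ - Real.pi / 2 - ε) (φ + Real.pi / 2 + ε), ∀ i j,
          Tendsto (fun q : ℝ => (J₀ (q + φ' * Complex.I) * U.map (Int.castRingHom ℂ) *
            Matrix.diagonal fun k => Complex.exp (-u k * Complex.exp (-(q + φ' * Complex.I)))) i j)
            atBot (𝓝 (Ψ i j)))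
    {𝒮 : ℂ → Matrix (Fin N) (Fin N) ℂ} (h𝒮 : Tendsto 𝒮 (Bornology.cobounded ℂ) (𝓝 1))
    (hcal : X.Sol (X.zSol 𝒮)) :
    ∃ M : MD X, M.φ = φ := by
  have hπ := Real.pi_pos
  obtain ⟨u, hroot, hord⟩ := exists_order (X.E) hsep
    (fun x => (x * Complex.exp (-φ * Complex.I)).re) (fun x y hx hy hxy h => hφ x y hx hy hxy (by
      rw [sub_mul, Complex.sub_re, h, sub_self]))
  have hinj : Function.Injective u := by
    intro i j hij
    by_contra hne
    rcases lt_or_gt_of_ne hne with h | h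
    · exact absurd (hord i j h) (by rw [hij]; exact lt_irrefl _)
    · exact absurd (hord j i h) (by rw [hij]; exact lt_irrefl _)
  have hre : ∀ i j, i ≠ j → ((u i - u j) * Complex.exp (-φ * Complex.I)).re ≠ 0 :=
    fun i j hij => hφ (u i) (u j) (hroot i) (hroot j) (fun h => hij (hinj h))
  obtain ⟨Ψ, heig, hnorm⟩ := exists_psi (X.E) X.g X.g_det
    (X.E_self) u hinj hroot
  have hΨ : Ψ.det ≠ 0 := by
    intro h
    have h1 := congrArg Matrix.det hnorm
    rw [Matrix.det_mul, h, mul_zero, Matrix.det_one] at h1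
    exact zero_ne_one h1
  obtain ⟨U₁, ε₁, hε₁, hlim₁⟩ := hchain u Ψ (φ + Real.pi / 2) heig hnorm
    (fun i j hij => ed_adm1 (hre i j hij))
  obtain ⟨U₂, ε₂, hε₂, hlim₂⟩ := hchain u Ψ (φ - Real.pi / 2) heig hnorm
    (fun i j hij => ed_adm2 (hre i j hij))
  have hε : 0 < min ε₁ ε₂ := lt_min hε₁ hε₂
  have h1 : Asym u Ψ (φ - min ε₁ ε₂) (φ + Real.pi + min ε₁ ε₂)
      (fun w => J₀ w * U₁.map (Int.castRingHom ℂ)) := by
    intro φ' hφ'
    have h2 := hlim₁ φ' ⟨by linarith [hφ'.1, min_le_left ε₁ ε₂],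
      by linarith [hφ'.2, min_le_left ε₁ ε₂]⟩
    exact tendsto_pi_nhds.mpr fun i => tendsto_pi_nhds.mpr fun j => h2 i j
  have h2 : Asym u Ψ (φ - Real.pi - min ε₁ ε₂) (φ + min ε₁ ε₂)
      (fun w => J₀ w * U₂.map (Int.castRingHom ℂ)) := by
    intro φ' hφ'
    have h2 := hlim₂ φ' ⟨by linarith [hφ'.1, min_le_right ε₁ ε₂],
      by linarith [hφ'.2, min_le_right ε₁ ε₂]⟩
    exact tendsto_pi_nhds.mpr fun i => tendsto_pi_nhds.mpr fun j => h2 i j
  have s1 := ed_mul hJ (U₁.map (Int.castRingHom ℂ))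
  have s2 := ed_mul hJ (U₂.map (Int.castRingHom ℂ))
  obtain ⟨w₂, hw₂⟩ := asym_det hΨ (by linarith) h2
  obtain ⟨S, hS⟩ := sol_eq s2 s1 hw₂
  obtain ⟨w₃, hw₃⟩ := cal_det (X := X) h𝒮
  obtain ⟨C, hC⟩ := sol_eq hcal s1 hw₃
  exact ⟨{
    u := u
    Ψ := Ψ
    eigen := heig
    normalised := hnorm
    φ := φ
    ordered := hord
    ε := min ε₁ ε₂
    ε_pos := hε
    Xplus := fun w => J₀ w * U₂.map (Int.castRingHom ℂ)
    plus_solution := s2
    plus_asymptotics := h2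
    Xminus := fun w => J₀ w * U₁.map (Int.castRingHom ℂ)
    minus_solution := s1
    minus_asymptotics := h1
    𝒮 := 𝒮
    calibration_limit := h𝒮
    calibration_solution := hcal
    S := S
    stokes := hS
    C := C
    central := hC }, rfl⟩

end Pool.Agent.FLG.Mo
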