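import Pool.Agent.FLG.D.FChain
import Pool.Agent.FLG.D.FQ
import Pool.Agent.FLG.M.Data
import Pool.Agent.FLG.M.Ex
import Pool.Agent.Helper7.DubStokes.Alg

/-!
# FLG-M-Fin: the monodromy data of the small connection and the `Γ`-solutions
-/

open scoped BigOperators Topology
open Filter

namespace Pool.Agent.FLG.Mo

open Pool.Agent.DST Pool.Agent.FLG.Dl

variable {N : ℕ}

/-- `X` is the limit `λ = 0` of `T`. -/
structure IsLim (T : GQ N) (X : MS (Fin N)) : Prop where
  dim : X.dim = T.dim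
  deg : X.deg = T.deg
  E : X.E = T.C 0
  g : X.g = T.g 0

private theorem evZ_zero_int (f : LaurentPolynomial ℤ) : ∃ m : ℤ, evZ 0 f = m := by
  refine f.induction_on' (fun p q hp hq => ?_) (fun n a => ?_)
  · obtain ⟨a, ha⟩ := hp
    obtain ⟨b, hb⟩ := hq
    exact ⟨a + b, by rw [map_add, ha, hb]; push_cast; rfl⟩
  · refine ⟨a, ?_⟩
    have h1 : qu 0 = 1 := by
      apply Units.ext
      show Complex.exp (2 * Real.pi * Complex.I * 0) = 1
      rw [mul_zero, Complex.exp_zero]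
    unfold evZ
    rw [LaurentPolynomial.eval₂_C_mul_T, h1, one_zpow]
    simp

/-- The normalised pairing with `X_+` of a solution with the asymptotics of `X_-`. -/
private theorem pairing_one {X : MS (Fin N)} (M : MD X) (Y : ℂ → Matrix (Fin N) (Fin N) ℂ)
    (hY : X.Sol Y) {ε : ℝ} (hε : 0 < ε)
    (hYa : Asym M.u M.Ψ (M.φ - ε) (M.φ + Real.pi + ε) Y) (w : ℂ) :
    (M.Xplus (w - Real.pi * Complex.I)).transpose * X.g * Y w = 1 := by
  have hMε := M.ε_pos
  have hπ := Real.pi_pos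
  have hlim : ∀ α : ℝ, M.φ - ε < α → α < M.φ + Real.pi + ε → α - Real.pi < M.φ + M.ε →
      M.φ - Real.pi - M.ε < α - Real.pi → ∀ K : Matrix (Fin N) (Fin N) ℂ,
      (∀ w, (M.Xplus (w - Real.pi * Complex.I)).transpose * X.g * Y w = K) →
      (∀ i, K i i = 1) ∧ ∀ i j, i ≠ j →
        0 ≤ ((M.u i - M.u j) * Complex.exp (-α * Complex.I)).re → K i j = 0 := by
    intro α h1 h2 h3 h4 K hK
    refine pairing_limit X M.u M.Ψ M.normalised M.Xplus Y K α (fun s => ?_) ?_ ?_
    · rw [← hK (s + α * Complex.I)]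
      congr 4
      push_cast
      ring
    · exact M.plus_asymptotics (α - Real.pi) ⟨h4, h3⟩
    · exact hYa α ⟨h1, h2⟩
  have hK : ∀ w', (M.Xplus (w' - Real.pi * Complex.I)).transpose * X.g * Y w' =
      (M.Xplus (w - Real.pi * Complex.I)).transpose * X.g * Y w := fun w' =>
    pairing_const X M.Xplus Y M.plus_solution hY w' w
  set K := (M.Xplus (w - Real.pi * Complex.I)).transpose * X.g * Y w with hKdef
  obtain ⟨hd, h0⟩ := hlim M.φ (by linarith) (by linarith) (by linarith) (by linarith) K hK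
  obtain ⟨-, h1⟩ := hlim (M.φ + Real.pi) (by linarith) (by linarith) (by linarith) (by linarith) K
    hK
  ext i j
  rcases lt_trichotomy i j with h | h | h
  · rw [Matrix.one_apply_ne h.ne]
    apply h1 i j h.ne
    have h2 : Complex.exp (-((M.φ + Real.pi : ℝ) : ℂ) * Complex.I) =
        -Complex.exp (-M.φ * Complex.I) := by
      rw [show -((M.φ + Real.pi : ℝ) : ℂ) * Complex.I = -M.φ * Complex.I +
        -(Real.pi * Complex.I) by push_cast; ring, Complex.exp_add, Complex.exp_neg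
        (Real.pi * Complex.I), Complex.exp_pi_mul_I]
      norm_num
    rw [h2, mul_neg, ← neg_mul, neg_sub]
    exact (M.ordered_re i j h).le
  · rw [h, hd, Matrix.one_apply_eq]
  · rw [Matrix.one_apply_ne h.ne']
    exact h0 i j h.ne' (M.ordered_re j i h).le

private theorem adm {X : MS (Fin N)} (M : MD X) (i j : Fin N) (hij : i ≠ j) :
    ((M.u i - M.u j) * Complex.exp (-((M.φ + Real.pi / 2 : ℝ) : ℂ) * Complex.I)).im ≠ 0 := by
  have h1 : Complex.exp (-((M.φ + Real.pi / 2 : ℝ) : ℂ) * Complex.I) =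
      -Complex.I * Complex.exp (-M.φ * Complex.I) := by
    rw [show -((M.φ + Real.pi / 2 : ℝ) : ℂ) * Complex.I = -(Real.pi / 2 * Complex.I) + -M.φ * Complex.I by
      push_cast; ring, Complex.exp_add, Complex.exp_neg, Complex.exp_pi_div_two_mul_I, Complex.inv_I]
  rw [h1, show (M.u i - M.u j) * (-Complex.I * Complex.exp (-M.φ * Complex.I)) =
    -(Complex.I * ((M.u i - M.u j) * Complex.exp (-M.φ * Complex.I))) by ring, Complex.neg_im, Complex.I_mul_im]
  rcases lt_or_gt_of_ne hij with h | h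
  · have := M.ordered_re i j h
    rw [sub_mul, Complex.sub_re] at this ⊢
    intro hc
    linarith
  · have := M.ordered_re j i h
    intro hc
    linarith

private theorem theta_eq {T : GQ N} {X : MS (Fin N)} (h : IsLim T X) {Q : QSys N} (hQ : IsQ T Q) :
    Matrix.diagonal Q.θ = X.θ := by
  unfold MS.θ
  rw [h.dim, h.deg]
  congr 1
  funext a
  exact hQ.θ a

private theorem Q_sol {T : GQ N} {X : MS (Fin N)} (h : IsLim T X) {Q : QSys N} (hQ : IsQ T Q) :
    X.Sol fun w => Q.J 0 w := by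
  intro w i j
  have hΛ : ∀ x, x ∈ Q.Λ := fun x => by rw [hQ.Λ]; trivial
  have h2 := Q.J_ode 0 w (hΛ _) i j
  rw [zero_mul, hQ.C, theta_eq h hQ, ← h.E] at h2
  exact h2

theorem main (T : GQ N) {X : MS (Fin N)} (h : IsLim T X) (M : MD X) :
    ∃ U : Matrix (Fin N) (Fin N) ℤ, IsUnit U.det ∧
      (∀ w, M.Xminus w = (Complex.I / (Real.sqrt (2 * Real.pi) : ℂ)) ^ T.dim •
        (T.J 0 w * U.map (Int.castRingHom ℂ))) ∧
      M.S = (U.map (Int.castRingHom ℂ)).transpose * T.χ.map (evZ 0) * U.map (Int.castRingHom ℂ) := by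
  obtain ⟨Q, hQ⟩ := exists_Q T
  have hC0 : Q.C 0 = X.E := by rw [hQ.C, h.E]
  have hg0 : Q.g 0 = X.g := by rw [hQ.g, h.g]
  have hΛ : ∀ x, x ∈ Q.Λ := fun x => by rw [hQ.Λ]; trivial
  obtain ⟨U, ε, hε, hlim⟩ := chain T Q hQ (u := M.u) (Ψ₀ := M.Ψ) (by rw [hC0]; exact M.eigen)
    (by rw [hg0]; exact M.normalised) (φ := M.φ + Real.pi / 2) (adm M)
  set V : Matrix (Fin N) (Fin N) ℂ := U.map (Int.castRingHom ℂ) with hV
  set Y : ℂ → Matrix (Fin N) (Fin N) ℂ := fun w => Q.J 0 w * V with hY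
  have hYs : X.Sol Y := by
    intro w i j
    have h3 : HasDerivAt (fun w => ∑ k, Q.J 0 w i k * V k j)
        (∑ k, ((X.θ - Complex.exp (-w) • X.E) * Q.J 0 w) i k * V k j) w :=
      HasDerivAt.fun_sum fun k _ => (Q_sol h hQ w i k).mul_const _
    have h4 : (fun w => Y w i j) = fun w => ∑ k, Q.J 0 w i k * V k j := by
      funext w
      exact Matrix.mul_apply
    rw [h4]
    have h5 : ((X.θ - Complex.exp (-w) • X.E) * Y w) i j =
        ∑ k, ((X.θ - Complex.exp (-w) • X.E) * Q.J 0 w) i k * V k j := by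
      rw [hY]
      show ((X.θ - Complex.exp (-w) • X.E) * (Q.J 0 w * V)) i j = _
      rw [← Matrix.mul_assoc, Matrix.mul_apply]
    rw [h5]
    exact h3
  have hYa : Asym M.u M.Ψ (M.φ - ε) (M.φ + Real.pi + ε) Y := by
    intro φ' hφ'
    have h1 := hlim φ' ⟨by linarith [hφ'.1], by linarith [hφ'.2]⟩
    exact tendsto_pi_nhds.mpr fun i => tendsto_pi_nhds.mpr fun j => h1 i j
  have hYX : ∀ w, Y w = M.Xminus w := by
    intro w
    have h1 := pairing_one M Y hYs hε hYa w
    have h2 := M.pairing_plus_minus w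
    rw [← Matrix.inv_eq_right_inv h1, Matrix.inv_eq_right_inv h2]
  have hJ : (Q.J 0 (0 + Real.pi * Complex.I)).transpose * X.g * Q.J 0 0 = T.χ.map (evZ 0) := by
    have h1 := Q.J_pair 0 0 (hΛ _)
    rw [neg_zero, zero_mul, hg0, hQ.χ] at h1
    exact h1
  have hS : M.S = V.transpose * T.χ.map (evZ 0) * V := by
    rw [← M.pairing_minus_minus 0, ← hYX, ← hYX, ← hJ, hY]
    show (Q.J 0 (0 + Real.pi * Complex.I) * V).transpose * X.g * (Q.J 0 0 * V) = _
    rw [Matrix.transpose_mul]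
    simp only [Matrix.mul_assoc]
  refine ⟨U, ?_, ?_, hS⟩
  · have hdetS : M.S.det = 1 := by
      rw [Matrix.det_of_isUpperTriangular (fun i j hij => M.S_entries.2 i j hij)]
      simp [M.S_entries.1]
    obtain ⟨m, hm⟩ := evZ_zero_int T.χ.det
    have hdχ : (T.χ.map (evZ 0)).det = (m : ℂ) := by
      rw [← hm, RingHom.map_det]
      rfl
    have hdV : V.det = (U.det : ℂ) := by
      rw [hV]
      have := RingHom.map_det (Int.castRingHom ℂ) U
      rw [RingHom.mapMatrix_apply] at this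
      rw [← this]
      rfl
    rw [hS, Matrix.det_mul, Matrix.det_mul, Matrix.det_transpose, hdχ, hdV] at hdetS
    have h1 : U.det * (m * U.det) = 1 := by
      have : ((U.det * (m * U.det) : ℤ) : ℂ) = ((1 : ℤ) : ℂ) := by
        rw [Int.cast_mul, Int.cast_mul, ← mul_assoc, Int.cast_one]
        exact hdetS
      exact Int.cast_injective this
    exact IsUnit.of_mul_eq_one _ h1
  · intro w
    rw [← hYX w, hY]
    show Q.J 0 w * V = _
    rw [hQ.J, Matrix.smul_mul]

/-- Existence of the monodromy data. -/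
theorem exists_data (T : GQ N) {X : MS (Fin N)} (h : IsLim T X) (hsep : X.E.charpoly.Separable)
    {φ : ℝ} (hφ : ∀ x y, X.E.charpoly.IsRoot x → X.E.charpoly.IsRoot y → x ≠ y →
      ((x - y) * Complex.exp (-φ * Complex.I)).re ≠ 0)
    {𝒮 : ℂ → Matrix (Fin N) (Fin N) ℂ} (h𝒮 : Tendsto 𝒮 (Bornology.cobounded ℂ) (𝓝 1))
    (hcal : X.Sol (X.zSol 𝒮)) : ∃ M : MD X, M.φ = φ := by
  obtain ⟨Q, hQ⟩ := exists_Q T
  have hC0 : Q.C 0 = X.E := by rw [hQ.C, h.E]
  have hg0 : Q.g 0 = X.g := by rw [hQ.g, h.g]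
  refine data_of hsep hφ (J₀ := fun w => Q.J 0 w) (Q_sol h hQ) ?_ h𝒮 hcal
  intro u Ψ φ' heig hnorm hadm
  exact chain T Q hQ (by rw [hC0]; exact heig) (by rw [hg0]; exact hnorm) hadm

end Pool.Agent.FLG.Mo
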