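import Pool.Agent.FLG.Small
import Pool.Agent.FLG.M.Fin
import Pool.Agent.FLG.M.Cal

/-!
# FLG-M-Tr: transfer to `Small ι`, and the final theorems in terms of `Small ι`
-/

set_option autoImplicit false

open scoped BigOperators Topology
open Filter

namespace Pool.Agent.FLG.Mo

open Pool.Agent.DST Pool.Agent.FLG.Dl

variable {ι : Type} [Fintype ι] [DecidableEq ι] {N : ℕ}

/-- The properties of the pairing and of the degrees. -/
structure Ok (X : Small ι) : Prop where
  symm : X.pair.transpose = X.pair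
  det : X.pair.det ≠ 0
  deg : ∀ a b, X.pair a b ≠ 0 → X.deg a + X.deg b = X.dim
  self : X.mul.transpose * X.pair = X.pair * X.mul
  cup_deg : ∀ a b, X.cup a b ≠ 0 → X.deg a = X.deg b + 1

/-- Reindexing. -/
noncomputable def toMS (X : Small ι) (h : Ok X) (e : Fin N ≃ ι) : MS (Fin N) where
  dim := X.dim
  deg := fun p => X.deg (e p)
  E := X.mul.submatrix e e
  g := X.pair.submatrix e e
  ρ := X.cup.submatrix e e
  g_symm := by rw [Matrix.transpose_submatrix, h.symm]
  g_det := by rw [Matrix.det_submatrix_equiv_self]; exact h.det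
  g_deg := fun a b hab => h.deg _ _ hab
  E_self := by
    rw [Matrix.transpose_submatrix, Matrix.submatrix_mul_equiv, Matrix.submatrix_mul_equiv, h.self]
  ρ_deg := fun a b hab => h.cup_deg _ _ hab

theorem exp_sub (A : Matrix ι ι ℂ) (e : Fin N ≃ ι) :
    (NormedSpace.exp A).submatrix e e = NormedSpace.exp (A.submatrix e e) := by
  let _ : NormedRing (Matrix ι ι ℂ) := Matrix.linftyOpNormedRing
  let _ : NormedAlgebra ℂ (Matrix ι ι ℂ) := Matrix.linftyOpNormedAlgebra
  let _ : NormedAlgebra ℚ (Matrix ι ι ℂ) := NormedAlgebra.restrictScalars ℚ ℂ _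
  let _ : NormedRing (Matrix (Fin N) (Fin N) ℂ) := Matrix.linftyOpNormedRing
  let _ : NormedAlgebra ℂ (Matrix (Fin N) (Fin N) ℂ) := Matrix.linftyOpNormedAlgebra
  let _ : NormedAlgebra ℚ (Matrix (Fin N) (Fin N) ℂ) := NormedAlgebra.restrictScalars ℚ ℂ _
  exact NormedSpace.map_exp (Matrix.reindexAlgEquiv ℂ ℂ e.symm)
    (continuous_id.matrix_submatrix e e) A

variable {X : Small ι} (h : Ok X) (e : Fin N ≃ ι)

theorem toMS_θ : (toMS X h e).θ = X.theta.submatrix e e := by
  unfold MS.θ Small.theta
  rw [Matrix.submatrix_diagonal_equiv]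
  rfl

theorem sub_sol {κ : Type} (f : Fin N → κ) {Y : ℂ → Matrix ι κ ℂ} (hY : IsSolution X Y) :
    (toMS X h e).Sol fun w => (Y w).submatrix e f := by
  intro w i j
  have h1 : ((toMS X h e).θ - Complex.exp (-w) • (toMS X h e).E) * (Y w).submatrix e f =
      ((X.theta - Complex.exp (-w) • X.mul) * Y w).submatrix e f := by
    rw [toMS_θ, ← Matrix.submatrix_mul_equiv _ _ e e f]
    rfl
  show HasDerivAt (fun w => Y w (e i) (f j))
    ((((toMS X h e).θ - Complex.exp (-w) • (toMS X h e).E) * (Y w).submatrix e f) i j) w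
  rw [h1]
  exact hY w (e i) (f j)

theorem sol_sub {κ : Type} (f : κ → Fin N) {Y : ℂ → Matrix (Fin N) (Fin N) ℂ}
    (hY : (toMS X h e).Sol Y) : IsSolution X fun w => (Y w).submatrix e.symm f := by
  intro w i j
  have h1 : (X.theta - Complex.exp (-w) • X.mul) * (Y w).submatrix e.symm f =
      (((toMS X h e).θ - Complex.exp (-w) • (toMS X h e).E) * Y w).submatrix e.symm f := by
    rw [toMS_θ, ← Matrix.submatrix_mul_equiv _ _ e.symm e.symm f]
    congr 1
    ext a b
    simp [toMS]
  show HasDerivAt (fun w => Y w (e.symm i) (f j))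
    (((X.theta - Complex.exp (-w) • X.mul) * (Y w).submatrix e.symm f) i j) w
  rw [h1]
  exact hY w (e.symm i) (f j)

theorem zSol_sub (𝒮 : ℂ → Matrix ι ι ℂ) (w : ℂ) :
    (toMS X h e).zSol (fun z => (𝒮 z).submatrix e e) w = (zSol X 𝒮 w).submatrix e e := by
  unfold MS.zSol zSol
  rw [← Matrix.submatrix_mul_equiv _ _ e e e, ← Matrix.submatrix_mul_equiv _ _ e e e, exp_sub,
    exp_sub, toMS_θ]
  rfl

theorem zSol_sub' (𝒮 : ℂ → Matrix (Fin N) (Fin N) ℂ) (w : ℂ) :
    zSol X (fun z => (𝒮 z).submatrix e.symm e.symm) w =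
      ((toMS X h e).zSol 𝒮 w).submatrix e.symm e.symm := by
  have h1 := zSol_sub h e (fun z => (𝒮 z).submatrix e.symm e.symm) w
  have h2 : (fun z => ((𝒮 z).submatrix e.symm e.symm).submatrix e e) = 𝒮 := by
    funext z
    ext a b
    simp
  rw [h2] at h1
  rw [h1]
  ext a b
  simp

omit [Fintype ι] [DecidableEq ι] in
theorem asym_sub {u : Fin N → ℂ} {Ψ : Matrix ι (Fin N) ℂ} {α β : ℝ}
    {Y : ℂ → Matrix ι (Fin N) ℂ} (hY : HasAsymptotics u Ψ α β Y) :
    Asym u (Ψ.submatrix e id) α β fun w => (Y w).submatrix e id := by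
  intro φ hφ
  have h1 := hY φ hφ
  have h2 := ((continuous_id.matrix_submatrix e (id : Fin N → Fin N)).tendsto Ψ).comp h1
  refine h2.congr fun s => ?_
  ext i j
  simp [Matrix.mul_apply]

omit [Fintype ι] [DecidableEq ι] in
theorem asym_sub' {u : Fin N → ℂ} {Ψ : Matrix (Fin N) (Fin N) ℂ} {α β : ℝ}
    {Y : ℂ → Matrix (Fin N) (Fin N) ℂ} (hY : Asym u Ψ α β Y) :
    HasAsymptotics u (Ψ.submatrix e.symm id) α β fun w => (Y w).submatrix e.symm id := by
  intro φ hφ
  have h1 := hY φ hφ
  have h2 := ((continuous_id.matrix_submatrix e.symm (id : Fin N → Fin N)).tendsto Ψ).comp h1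
  refine h2.congr fun s => ?_
  ext i j
  simp [Matrix.mul_apply]

/-- Monodromy data of the reindexed connection. -/
noncomputable def toMD (M : MonodromyData X N) : MD (toMS X h e) where
  u := M.u
  Ψ := M.Ψ.submatrix e id
  eigen := by
    show X.mul.submatrix e e * M.Ψ.submatrix e id = _
    rw [Matrix.submatrix_mul_equiv, M.eigen]
    ext i j
    simp [Matrix.mul_apply]
  normalised := by
    show (M.Ψ.submatrix e id).transpose * X.pair.submatrix e e * M.Ψ.submatrix e id = 1
    rw [Matrix.transpose_submatrix, Matrix.submatrix_mul_equiv, Matrix.submatrix_mul_equiv,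
      M.normalised, Matrix.submatrix_id_id]
  φ := M.φ
  ordered := M.ordered
  ε := M.ε
  ε_pos := M.ε_pos
  Xplus := fun w => (M.Xplus w).submatrix e id
  plus_solution := sub_sol h e id M.plus_solution
  plus_asymptotics := asym_sub e M.plus_asymptotics
  Xminus := fun w => (M.Xminus w).submatrix e id
  minus_solution := sub_sol h e id M.minus_solution
  minus_asymptotics := asym_sub e M.minus_asymptotics
  𝒮 := fun z => (M.𝒮 z).submatrix e e
  calibration_limit := by
    have h1 := ((continuous_id.matrix_submatrix e e).tendsto (1 : Matrix ι ι ℂ)).comp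
      M.calibration_limit
    simp only [id, Matrix.submatrix_one_equiv] at h1
    exact h1
  calibration_solution := by
    have h1 := sub_sol h e e M.calibration_solution
    have h2 : (fun w => (zSol X M.𝒮 w).submatrix e e) =
        (toMS X h e).zSol fun z => (M.𝒮 z).submatrix e e := by
      funext w
      rw [zSol_sub]
    rw [h2] at h1
    exact h1
  S := M.S
  stokes := fun w => by
    show (M.Xminus w).submatrix e id = (M.Xplus w).submatrix e id * M.S
    rw [M.stokes w]
    ext i j
    simp [Matrix.mul_apply]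
  C := M.C.submatrix e id
  central := fun w => by
    show (M.Xminus w).submatrix e id = _
    rw [zSol_sub, M.central w, Matrix.submatrix_mul_equiv]

/-- Monodromy data of the original connection. -/
noncomputable def ofMD (M : MD (toMS X h e)) : MonodromyData X N where
  u := M.u
  Ψ := M.Ψ.submatrix e.symm id
  eigen := by
    have h1 : (X.mul.submatrix e e * M.Ψ).submatrix e.symm id =
        (M.Ψ * Matrix.diagonal M.u).submatrix e.symm id := by
      have := M.eigen
      exact congrArg (fun A => A.submatrix e.symm id) this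
    have h2 : X.mul = (X.mul.submatrix e e).submatrix e.symm e.symm := by
      ext a b
      simp
    rw [h2, Matrix.submatrix_mul_equiv, h1]
    ext i j
    simp [Matrix.mul_apply]
  normalised := by
    have h1 := M.normalised
    have h2 : X.pair = (X.pair.submatrix e e).submatrix e.symm e.symm := by
      ext a b
      simp
    rw [h2, Matrix.transpose_submatrix, Matrix.submatrix_mul_equiv, Matrix.submatrix_mul_equiv,
      Matrix.submatrix_id_id]
    exact h1
  φ := M.φ
  ordered := M.ordered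
  ε := M.ε
  ε_pos := M.ε_pos
  Xplus := fun w => (M.Xplus w).submatrix e.symm id
  plus_solution := sol_sub h e id M.plus_solution
  plus_asymptotics := asym_sub' e M.plus_asymptotics
  Xminus := fun w => (M.Xminus w).submatrix e.symm id
  minus_solution := sol_sub h e id M.minus_solution
  minus_asymptotics := asym_sub' e M.minus_asymptotics
  𝒮 := fun z => (M.𝒮 z).submatrix e.symm e.symm
  calibration_limit := by
    have h1 := ((continuous_id.matrix_submatrix e.symm e.symm).tendsto
      (1 : Matrix (Fin N) (Fin N) ℂ)).comp M.calibration_limit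
    simp only [id, Matrix.submatrix_one_equiv] at h1
    exact h1
  calibration_solution := by
    have h1 := sol_sub h e e.symm M.calibration_solution
    have h2 : (fun w => ((toMS X h e).zSol M.𝒮 w).submatrix e.symm e.symm) =
        zSol X fun z => (M.𝒮 z).submatrix e.symm e.symm := by
      funext w
      rw [zSol_sub' h e]
    rw [h2] at h1
    exact h1
  S := M.S
  stokes := fun w => by
    show (M.Xminus w).submatrix e.symm id = (M.Xplus w).submatrix e.symm id * M.S
    rw [M.stokes w]
    ext i j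
    simp [Matrix.mul_apply]
  C := M.C.submatrix e.symm id
  central := fun w => by
    show (M.Xminus w).submatrix e.symm id = _
    rw [zSol_sub' h e, M.central w, Matrix.submatrix_mul_equiv]

/-- `X` is the limit `λ = 0` of `T`. -/
structure IsLimS (T : GQ N) (X : Small ι) (e : Fin N ≃ ι) : Prop where
  dim : X.dim = T.dim
  deg : ∀ p, X.deg (e p) = T.deg p
  mul : X.mul.submatrix e e = T.C 0
  pair : X.pair.submatrix e e = T.g 0

theorem IsLimS.lim {T : GQ N} {X : Small ι} {e : Fin N ≃ ι} (hT : IsLimS T X e) (h : Ok X) :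
    IsLim T (toMS X h e) where
  dim := hT.dim
  deg := funext hT.deg
  E := hT.mul
  g := hT.pair

/-- The Stokes matrix, the central connection matrix and the solutions `X_-`. -/
theorem main_small {T : GQ N} {X : Small ι} {e : Fin N ≃ ι} (hT : IsLimS T X e) (h : Ok X)
    {Z : ℂ → Matrix ι ι ℂ} (hZ : IsStandard X Z) {G₀ : Matrix ι (Fin N) ℂ}
    (hJ : ∀ w, T.J 0 w = (Z w * G₀).submatrix e id) (M : MonodromyData X N) :
    ∃ U : Matrix (Fin N) (Fin N) ℤ, IsUnit U.det ∧
      M.S = (U.map (Int.castRingHom ℂ)).transpose * T.χ.map (evZ 0) * U.map (Int.castRingHom ℂ) ∧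
      (∀ w, M.Xminus w = (Complex.I / (Real.sqrt (2 * Real.pi) : ℂ)) ^ X.dim •
        (Z w * G₀ * U.map (Int.castRingHom ℂ))) ∧
      ∃ K : Matrix ι ι ℂ, K * X.cup = X.cup * K ∧ K.det ≠ 0 ∧
        (∀ w, zSol X M.𝒮 w = Z w * K) ∧
        K * M.C = (Complex.I / (Real.sqrt (2 * Real.pi) : ℂ)) ^ X.dim •
          (G₀ * U.map (Int.castRingHom ℂ)) := by
  obtain ⟨U, hU, hX, hS⟩ := main T (hT.lim h) (toMD h e M)
  have hXm : ∀ w, M.Xminus w = (Complex.I / (Real.sqrt (2 * Real.pi) : ℂ)) ^ X.dim •
      (Z w * G₀ * U.map (Int.castRingHom ℂ)) := by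
    intro w
    have h1 : (M.Xminus w).submatrix e id = (Complex.I / (Real.sqrt (2 * Real.pi) : ℂ)) ^ T.dim •
        (T.J 0 w * U.map (Int.castRingHom ℂ)) := hX w
    rw [← hT.dim, hJ w] at h1
    ext i j
    have h2 := congrFun (congrFun h1 (e.symm i)) j
    simpa [Matrix.mul_apply] using h2
  refine ⟨U, hU, hS, hXm, ?_⟩
  obtain ⟨hZs, P, hP1, hP2⟩ := hZ
  have hPt : Tendsto P (Bornology.cobounded ℂ) (𝓝 1) :=
    tendsto_pi_nhds.mpr fun i => tendsto_pi_nhds.mpr fun j => hP1 i j
  have hZe : ∀ w, (Z w).submatrix e e = NormedSpace.exp (w • (toMS X h e).θ) *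
      (P (Complex.exp w)).submatrix e e * NormedSpace.exp (-w • (toMS X h e).ρ) := by
    intro w
    rw [hP2 w, ← Matrix.submatrix_mul_equiv _ _ e e e, ← Matrix.submatrix_mul_equiv _ _ e e e,
      exp_sub, exp_sub, toMS_θ]
    rfl
  obtain ⟨K, hK1, hK2, hK3⟩ := cal_compare (toMS X h e) (toMD h e M).calibration_limit
    (toMD h e M).calibration_solution (fun z => (P z).submatrix e e) (by
      have h1 := sub_sol h e e hZs
      have h2 : (fun w => (Z w).submatrix e e) = fun w =>
          NormedSpace.exp (w • (toMS X h e).θ) * (P (Complex.exp w)).submatrix e e *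
            NormedSpace.exp (-w • (toMS X h e).ρ) := funext hZe
      rw [h2] at h1
      exact h1) (by
      have h1 : Tendsto (fun z => (P z).det) (Bornology.cobounded ℂ) (𝓝 1) := by
        have := (Continuous.matrix_det continuous_id (n := ι) (R := ℂ)).tendsto
          (1 : Matrix ι ι ℂ)
        rw [show (id (1 : Matrix ι ι ℂ)).det = 1 from Matrix.det_one] at this
        exact this.comp hPt
      have h2 : ∀ᶠ z in Bornology.cobounded ℂ, (P z).det ≠ 0 :=
        h1.eventually_ne one_ne_zero
      have h3 : ∀ᶠ z : ℂ in Bornology.cobounded ℂ, z ≠ 0 := by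
        have := (tendsto_norm_cobounded_atTop (E := ℂ)).eventually (eventually_gt_atTop 0)
        filter_upwards [this] with z hz
        exact norm_pos_iff.1 hz
      obtain ⟨z, hz1, hz2⟩ := (h2.and h3).exists
      exact ⟨z, hz2, by rw [Matrix.det_submatrix_equiv_self]; exact hz1⟩)
  have hKe : ∀ A : Matrix (Fin N) (Fin N) ℂ, (A.submatrix e.symm e.symm).submatrix e e = A := by
    intro A
    ext a b
    simp
  have hinj : ∀ A B : Matrix ι ι ℂ, A.submatrix e e = B.submatrix e e → A = B := by
    intro A B hAB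
    ext a b
    have := congrFun (congrFun hAB (e.symm a)) (e.symm b)
    simpa using this
  have hz : ∀ w, zSol X M.𝒮 w = Z w * K.submatrix e.symm e.symm := by
    intro w
    apply hinj
    have h1 := hK3 w
    rw [← hZe w] at h1
    rw [← Matrix.submatrix_mul_equiv _ _ e e e, hKe, ← h1, ← zSol_sub h e]
    rfl
  refine ⟨K.submatrix e.symm e.symm, ?_, ?_, hz, ?_⟩
  · apply hinj
    rw [← Matrix.submatrix_mul_equiv _ _ e e e, ← Matrix.submatrix_mul_equiv _ _ e e e, hKe]
    exact hK1
  · rw [Matrix.det_submatrix_equiv_self]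
    exact hK2
  · obtain ⟨w₁, hw₁⟩ := cal_det (X := toMS X h e) (toMD h e M).calibration_limit
    have hdet : (zSol X M.𝒮 w₁).det ≠ 0 := by
      have h1 : (toMS X h e).zSol (toMD h e M).𝒮 w₁ = (zSol X M.𝒮 w₁).submatrix e e :=
        zSol_sub h e M.𝒮 w₁
      rw [h1, Matrix.det_submatrix_equiv_self] at hw₁
      exact hw₁
    have h1 : Z w₁ * (K.submatrix e.symm e.symm * M.C) =
        Z w₁ * ((Complex.I / (Real.sqrt (2 * Real.pi) : ℂ)) ^ X.dim •
          (G₀ * U.map (Int.castRingHom ℂ))) := by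
      rw [← Matrix.mul_assoc, ← hz, ← M.central, hXm, Matrix.mul_smul, Matrix.mul_assoc]
    have h2 : IsUnit (Z w₁).det := by
      rw [isUnit_iff_ne_zero]
      intro h0
      apply hdet
      rw [hz, Matrix.det_mul, h0, zero_mul]
    have h3 : (Z w₁)⁻¹ * (Z w₁ * (K.submatrix e.symm e.symm * M.C)) = (Z w₁)⁻¹ *
        (Z w₁ * ((Complex.I / (Real.sqrt (2 * Real.pi) : ℂ)) ^ X.dim •
          (G₀ * U.map (Int.castRingHom ℂ)))) := by rw [h1]
    rw [← Matrix.mul_assoc (Z w₁)⁻¹, Matrix.nonsing_inv_mul _ h2, Matrix.one_mul,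
      ← Matrix.mul_assoc (Z w₁)⁻¹, Matrix.nonsing_inv_mul _ h2, Matrix.one_mul] at h3
    exact h3

/-- Existence of the monodromy data. -/
theorem exists_data_small {T : GQ N} {X : Small ι} {e : Fin N ≃ ι} (hT : IsLimS T X e) (h : Ok X)
    (C : ℕ → Matrix ι ι ℂ) (K : ℕ) (hC0 : C 0 = X.cup)
    (hC : ∀ d i j, C d i j ≠ 0 → X.deg i + d = X.deg j + 1) (hK : ∀ d, K < d → C d = 0)
    (hE : X.mul = ∑ d ∈ Finset.range (K + 1), C d) (hsep : X.mul.charpoly.Separable)
    {φ : ℝ} (hφ : IsAdmissible X φ) : ∃ M : MonodromyData X N, M.φ = φ := by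
  have hch : (toMS X h e).E.charpoly = X.mul.charpoly := by
    show (X.mul.submatrix e e).charpoly = _
    exact Matrix.charpoly_reindex e.symm X.mul
  obtain ⟨𝒮, h1, h2⟩ := exists_cal (toMS X h e) (fun d => (C d).submatrix e e) K
    (by rw [hC0]; rfl) (fun d i j hd => hC d _ _ hd) (fun d hd => by rw [hK d hd]; rfl)
    (by
      show X.mul.submatrix e e = _
      rw [hE]
      ext i j
      simp [Matrix.sum_apply])
  obtain ⟨M, hM⟩ := exists_data T (hT.lim h) (by rw [hch]; exact hsep) (φ := φ)
    (by rw [hch]; exact hφ) h1 h2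
  exact ⟨ofMD h e M, hM⟩

end Pool.Agent.FLG.Mo
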