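import Mathlib

/-!
# FLG-M-Defs: a small quantum connection and its monodromy data
-/

open scoped BigOperators Topology
open Filter

namespace Pool.Agent.FLG.Mo

/-- A graded vector space with a pairing, a quantum multiplication `E` by the first Chern class and a
classical multiplication `ρ`. -/
structure MS (ι : Type) [Fintype ι] [DecidableEq ι] where
  dim : ℕ
  deg : ι → ℕ
  E : Matrix ι ι ℂ
  g : Matrix ι ι ℂ
  ρ : Matrix ι ι ℂ
  g_symm : g.transpose = g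
  g_det : g.det ≠ 0
  g_deg : ∀ a b, g a b ≠ 0 → deg a + deg b = dim
  E_self : E.transpose * g = g * E
  ρ_deg : ∀ a b, ρ a b ≠ 0 → deg a = deg b + 1

section

variable {ι : Type} [Fintype ι] [DecidableEq ι] (X : MS ι)

/-- The grading operator. -/
noncomputable def MS.θ : Matrix ι ι ℂ := Matrix.diagonal fun a => (X.dim : ℂ) / 2 - X.deg a

/-- The columns of `Y` are solutions of `dJ/dw = (θ - e^{-w} E) J`. -/
def MS.Sol (Y : ℂ → Matrix ι ι ℂ) : Prop :=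
  ∀ w i j, HasDerivAt (fun w => Y w i j) (((X.θ - Complex.exp (-w) • X.E) * Y w) i j) w

/-- The solution `𝒮(z) z^θ z^{-ρ}`. -/
noncomputable def MS.zSol (𝒮 : ℂ → Matrix ι ι ℂ) (w : ℂ) : Matrix ι ι ℂ :=
  𝒮 (Complex.exp w) * NormedSpace.exp (w • X.θ) * NormedSpace.exp (-w • X.ρ)

/-- `Y e^{-U/z}` tends to `Ψ` as `z → 0` radially, in every direction `arg z ∈ (α, β)`. -/
def Asym (u : ι → ℂ) (Ψ : Matrix ι ι ℂ) (α β : ℝ) (Y : ℂ → Matrix ι ι ℂ) : Prop :=
  ∀ φ ∈ Set.Ioo α β, Tendsto (fun s : ℝ => Y (s + φ * Complex.I) *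
    Matrix.diagonal fun j => Complex.exp (-u j * Complex.exp (-(s + φ * Complex.I))))
    atBot (𝓝 Ψ)

end

/-- Monodromy data. -/
structure MD {N : ℕ} (X : MS (Fin N)) where
  u : Fin N → ℂ
  Ψ : Matrix (Fin N) (Fin N) ℂ
  eigen : X.E * Ψ = Ψ * Matrix.diagonal u
  normalised : Ψ.transpose * X.g * Ψ = 1
  φ : ℝ
  ordered : ∀ i j, i < j →
    (u i * Complex.exp (-φ * Complex.I)).re < (u j * Complex.exp (-φ * Complex.I)).re
  ε : ℝ
  ε_pos : 0 < ε
  Xplus : ℂ → Matrix (Fin N) (Fin N) ℂ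
  plus_solution : X.Sol Xplus
  plus_asymptotics : Asym u Ψ (φ - Real.pi - ε) (φ + ε) Xplus
  Xminus : ℂ → Matrix (Fin N) (Fin N) ℂ
  minus_solution : X.Sol Xminus
  minus_asymptotics : Asym u Ψ (φ - ε) (φ + Real.pi + ε) Xminus
  𝒮 : ℂ → Matrix (Fin N) (Fin N) ℂ
  calibration_limit : Tendsto 𝒮 (Bornology.cobounded ℂ) (𝓝 1)
  calibration_solution : X.Sol (X.zSol 𝒮)
  S : Matrix (Fin N) (Fin N) ℂ
  stokes : ∀ w, Xminus w = Xplus w * S
  C : Matrix (Fin N) (Fin N) ℂ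
  central : ∀ w, Xminus w = X.zSol 𝒮 w * C

end Pool.Agent.FLG.Mo
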