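import Pool.Agent.FLG.M.Defs

/-!
# FLG-M-Mono: the pairing of flat sections, the monodromy
-/

open scoped BigOperators Topology
open Filter

namespace Pool.Agent.FLG.Mo

section generic

variable {ι : Type} [Fintype ι] [DecidableEq ι] (X : MS ι)

theorem theta_skew : (X.θ).transpose * X.g + X.g * X.θ = 0 := by
  ext a b
  rw [MS.θ, Matrix.diagonal_transpose, Matrix.add_apply, Matrix.diagonal_mul, Matrix.mul_diagonal,
    Matrix.zero_apply]
  by_cases h : X.g a b = 0
  · rw [h]; ring
  · have h1 := X.g_deg a b h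
    have h2 : (X.deg a : ℂ) + X.deg b = X.dim := by exact_mod_cast h1
    linear_combination (-X.g a b) * h2

/-- the order of nilpotency -/
noncomputable def nil : ℕ := (∑ k, X.deg k) + 1

theorem rho_pow_deg (j : ℕ) (k b : ι) (h : (X.ρ ^ j) k b ≠ 0) :
    X.deg k = X.deg b + j := by
  induction j generalizing k with
  | zero =>
    rw [pow_zero, Matrix.one_apply] at h
    by_cases hkb : k = b
    · rw [hkb]; rfl
    · rw [if_neg hkb] at h; exact absurd rfl h
  | succ j ih =>
    rw [pow_succ', Matrix.mul_apply] at h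
    obtain ⟨l, -, hl⟩ := Finset.exists_ne_zero_of_sum_ne_zero h
    have h1 := X.ρ_deg k l (left_ne_zero_of_mul hl)
    have h2 := ih l (right_ne_zero_of_mul hl)
    omega

theorem rho_pow_nil : X.ρ ^ nil X = 0 := by
  ext k b
  by_contra hne
  have h1 := rho_pow_deg X _ k b hne
  have h2 : X.deg k ≤ ∑ k, X.deg k := Finset.single_le_sum (fun _ _ => Nat.zero_le _)
    (Finset.mem_univ k)
  unfold nil at h1
  omega

theorem theta_comm_exp : NormedSpace.exp ((2 * Real.pi * Complex.I) • X.θ) =
    ((-1 : ℂ) ^ X.dim) • (1 : Matrix ι ι ℂ) := by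
  have h0 : (2 * Real.pi * Complex.I) • X.θ =
      Matrix.diagonal (fun a => (2 * Real.pi * Complex.I) * ((X.dim : ℂ) / 2 - X.deg a)) := by
    ext a b
    by_cases h : a = b
    · subst h; simp [MS.θ]
    · simp [MS.θ, Matrix.diagonal_apply_ne _ h]
  rw [h0, Matrix.exp_diagonal]
  ext a b
  by_cases h : a = b
  · subst h
    rw [Matrix.diagonal_apply_eq, Pi.coe_exp, Matrix.smul_apply, Matrix.one_apply_eq, smul_eq_mul,
      mul_one, ← Complex.exp_eq_exp_ℂ]
    have h1 : (2 * Real.pi * Complex.I) * ((X.dim : ℂ) / 2 - X.deg a) =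
        (X.dim : ℕ) * (Real.pi * Complex.I) - ((X.deg a : ℕ) : ℂ) * (2 * Real.pi * Complex.I) := by
      ring
    rw [h1, Complex.exp_sub, Complex.exp_nat_mul, Complex.exp_nat_mul, Complex.exp_pi_mul_I,
      Complex.exp_two_pi_mul_I, one_pow, div_one]
  · rw [Matrix.diagonal_apply_ne _ h, Matrix.smul_apply, Matrix.one_apply_ne h, smul_zero]

/-- The pairing of flat sections at `-z` and `z` is constant. -/
theorem pairing_const (Y W : ℂ → Matrix ι ι ℂ) (hY : X.Sol Y)
    (hW : X.Sol W) (w w' : ℂ) :
    (Y (w - Real.pi * Complex.I)).transpose * X.g * W w =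
      (Y (w' - Real.pi * Complex.I)).transpose * X.g * W w' := by
  ext i j
  let f : ℂ → ℂ := fun w => ∑ b, (∑ a, Y (w - Real.pi * Complex.I) a i * X.g a b) * W w b j
  have hf : ∀ w, ((Y (w - Real.pi * Complex.I)).transpose * X.g * W w) i j = f w := by
    intro w
    simp only [f, Matrix.mul_apply, Matrix.transpose_apply]
  rw [hf, hf]
  have hd : ∀ w, HasDerivAt f 0 w := by
    intro w
    let A : ℂ → Matrix ι ι ℂ := fun w => X.θ - Complex.exp (-w) • X.E
    have hY' : ∀ a, HasDerivAt (fun w => Y (w - Real.pi * Complex.I) a i)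
        ((A (w - Real.pi * Complex.I) * Y (w - Real.pi * Complex.I)) a i) w := by
      intro a
      have := hY (w - Real.pi * Complex.I) a i
      exact this.comp_sub_const w _
    have hW' : ∀ b, HasDerivAt (fun w => W w b j) ((A w * W w) b j) w := fun b => hW w b j
    have h1 : HasDerivAt f (∑ b, ((∑ a, (A (w - Real.pi * Complex.I) *
        Y (w - Real.pi * Complex.I)) a i * X.g a b) * W w b j +
        (∑ a, Y (w - Real.pi * Complex.I) a i * X.g a b) * (A w * W w) b j)) w := by
      refine HasDerivAt.fun_sum fun b _ => ?_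
      refine HasDerivAt.mul ?_ (hW' b)
      exact HasDerivAt.fun_sum fun a _ => (hY' a).mul_const _
    have h2 : (∑ b, ((∑ a, (A (w - Real.pi * Complex.I) *
        Y (w - Real.pi * Complex.I)) a i * X.g a b) * W w b j +
        (∑ a, Y (w - Real.pi * Complex.I) a i * X.g a b) * (A w * W w) b j)) =
        ((A (w - Real.pi * Complex.I) * Y (w - Real.pi * Complex.I)).transpose * X.g * W w +
          (Y (w - Real.pi * Complex.I)).transpose * X.g * (A w * W w)) i j := by
      rw [Matrix.add_apply, Finset.sum_add_distrib]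
      simp only [Matrix.mul_apply, Matrix.transpose_apply]
    have h3 : (A (w - Real.pi * Complex.I)).transpose * X.g + X.g * A w = 0 := by
      have h4 : A (w - Real.pi * Complex.I) = X.θ + Complex.exp (-w) • X.E := by
        show X.θ - Complex.exp (-(w - Real.pi * Complex.I)) • X.E = _
        rw [show -(w - Real.pi * Complex.I) = -w + Real.pi * Complex.I by ring, Complex.exp_add,
          Complex.exp_pi_mul_I, mul_neg_one, neg_smul, sub_neg_eq_add]
      rw [h4]
      show _ + X.g * (X.θ - Complex.exp (-w) • X.E) = 0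
      rw [Matrix.transpose_add, Matrix.transpose_smul, Matrix.add_mul, Matrix.smul_mul,
        X.E_self, Matrix.mul_sub, Matrix.mul_smul]
      rw [← theta_skew X]
      abel
    rw [h2] at h1
    have h5 : (A (w - Real.pi * Complex.I) * Y (w - Real.pi * Complex.I)).transpose * X.g * W w +
        (Y (w - Real.pi * Complex.I)).transpose * X.g * (A w * W w) = 0 := by
      have : (A (w - Real.pi * Complex.I) * Y (w - Real.pi * Complex.I)).transpose * X.g * W w +
        (Y (w - Real.pi * Complex.I)).transpose * X.g * (A w * W w) =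
        (Y (w - Real.pi * Complex.I)).transpose *
          ((A (w - Real.pi * Complex.I)).transpose * X.g + X.g * A w) * W w := by
        rw [Matrix.transpose_mul]
        simp only [Matrix.mul_add, Matrix.add_mul, Matrix.mul_assoc]
      rw [this, h3, Matrix.mul_zero, Matrix.zero_mul]
    rw [h5] at h1
    exact h1
  exact is_const_of_deriv_eq_zero (fun w => (hd w).differentiableAt) (fun w => (hd w).deriv) w w'

/-- Constants with exponential factors. -/
theorem const_entries (K : Matrix ι ι ℂ) (u : ι → ℂ) (α : ℝ)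
    (h : Tendsto (fun s : ℝ => Matrix.diagonal (fun i => Complex.exp (u i *
      Complex.exp (-(s + α * Complex.I)))) * K * Matrix.diagonal (fun j => Complex.exp (-u j *
      Complex.exp (-(s + α * Complex.I))))) atBot (𝓝 1)) :
    (∀ i, K i i = 1) ∧ ∀ i j, i ≠ j → 0 ≤ ((u i - u j) * Complex.exp (-α * Complex.I)).re →
      K i j = 0 := by
  have h1 : ∀ i j, Tendsto (fun s : ℝ => K i j * Complex.exp ((u i - u j) *
      Complex.exp (-(s + α * Complex.I)))) atBot (𝓝 ((1 : Matrix ι ι ℂ) i j)) := by
    intro i j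
    have h2 := (continuous_apply_apply i j).continuousAt.tendsto.comp h
    refine h2.congr fun s => ?_
    show (Matrix.diagonal _ * K * Matrix.diagonal _ : Matrix ι ι ℂ) i j = _
    rw [Matrix.mul_diagonal, Matrix.diagonal_mul]
    rw [show (u i - u j) * Complex.exp (-(s + α * Complex.I)) = u i *
      Complex.exp (-(s + α * Complex.I)) + (-u j) * Complex.exp (-(s + α * Complex.I)) by ring,
      Complex.exp_add]
    ring
  refine ⟨fun i => ?_, fun i j hij hre => ?_⟩
  · have h2 := h1 i i
    simp only [sub_self, zero_mul, Complex.exp_zero, mul_one, Matrix.one_apply_eq] at h2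
    exact tendsto_nhds_unique tendsto_const_nhds h2
  · have h2 := (h1 i j).norm
    rw [Matrix.one_apply_ne hij, norm_zero] at h2
    have h3 : ∀ s : ℝ, ‖K i j‖ ≤ ‖K i j * Complex.exp ((u i - u j) *
        Complex.exp (-(s + α * Complex.I)))‖ := by
      intro s
      rw [norm_mul, Complex.norm_exp]
      have h4 : ((u i - u j) * Complex.exp (-(s + α * Complex.I))).re =
          Real.exp (-s) * ((u i - u j) * Complex.exp (-α * Complex.I)).re := by
        rw [show -(s + α * Complex.I) = ((-s : ℝ) : ℂ) + (-α * Complex.I) by push_cast; ring,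
          Complex.exp_add, ← Complex.ofReal_exp, mul_left_comm, Complex.re_ofReal_mul]
      rw [h4]
      have h5 : 1 ≤ Real.exp (Real.exp (-s) * ((u i - u j) * Complex.exp (-α * Complex.I)).re) :=
        Real.one_le_exp (mul_nonneg (Real.exp_pos _).le hre)
      exact le_mul_of_one_le_right (norm_nonneg _) h5
    have h6 := ge_of_tendsto' h2 h3
    exact norm_le_zero_iff.1 h6

/-- The limit of the pairing of two solutions. -/
theorem pairing_limit (u : ι → ℂ) (Ψ : Matrix ι ι ℂ)
    (hΨ : Ψ.transpose * X.g * Ψ = 1) (Y W : ℂ → Matrix ι ι ℂ) (K : Matrix ι ι ℂ) (α : ℝ)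
    (hK : ∀ s : ℝ, (Y (s + (α - Real.pi : ℝ) * Complex.I)).transpose * X.g *
      W (s + α * Complex.I) = K)
    (hY : Tendsto (fun s : ℝ => Y (s + (α - Real.pi : ℝ) * Complex.I) *
      Matrix.diagonal fun j => Complex.exp (-u j *
        Complex.exp (-(s + (α - Real.pi : ℝ) * Complex.I)))) atBot (𝓝 Ψ))
    (hW : Tendsto (fun s : ℝ => W (s + α * Complex.I) *
      Matrix.diagonal fun j => Complex.exp (-u j * Complex.exp (-(s + α * Complex.I))))
      atBot (𝓝 Ψ)) :
    (∀ i, K i i = 1) ∧ ∀ i j, i ≠ j → 0 ≤ ((u i - u j) * Complex.exp (-α * Complex.I)).re →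
      K i j = 0 := by
  apply const_entries
  rw [← hΨ]
  have h1 : Continuous fun M : Matrix ι ι ℂ => M.transpose := continuous_id.matrix_transpose
  have h2 := ((h1.tendsto Ψ).comp hY)
  have h3 : Tendsto (fun s : ℝ => (Y (s + (α - Real.pi : ℝ) * Complex.I) *
      Matrix.diagonal fun j => Complex.exp (-u j *
        Complex.exp (-(s + (α - Real.pi : ℝ) * Complex.I)))).transpose * X.g *
      (W (s + α * Complex.I) *
      Matrix.diagonal fun j => Complex.exp (-u j * Complex.exp (-(s + α * Complex.I)))))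
      atBot (𝓝 (Ψ.transpose * X.g * Ψ)) :=
    (h2.mul tendsto_const_nhds).mul hW
  refine h3.congr fun s => ?_
  rw [Matrix.transpose_mul, Matrix.diagonal_transpose]
  have h4 : Complex.exp (-(s + (α - Real.pi : ℝ) * Complex.I)) =
      -Complex.exp (-(s + α * Complex.I)) := by
    rw [show -((s : ℂ) + (α - Real.pi : ℝ) * Complex.I) = -(s + α * Complex.I) +
      Real.pi * Complex.I by push_cast; ring, Complex.exp_add, Complex.exp_pi_mul_I, mul_neg_one]
  rw [h4]
  simp only [neg_mul_neg]
  rw [← hK s]
  simp only [Matrix.mul_assoc]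

/-- Monodromy of the calibrated solution. -/
theorem zSol_add (𝒮 : ℂ → Matrix ι ι ℂ) (w : ℂ) :
    X.zSol 𝒮 (w + 2 * Real.pi * Complex.I) = ((-1 : ℂ) ^ X.dim) • (X.zSol 𝒮 w *
      NormedSpace.exp ((-(2 * Real.pi * Complex.I)) • X.ρ)) := by
  unfold MS.zSol
  rw [show Complex.exp (w + 2 * Real.pi * Complex.I) = Complex.exp w by
    rw [Complex.exp_add, Complex.exp_two_pi_mul_I, mul_one]]
  have h1 : NormedSpace.exp ((w + 2 * Real.pi * Complex.I) • X.θ) =
      ((-1 : ℂ) ^ X.dim) • NormedSpace.exp (w • X.θ) := by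
    rw [add_smul, Matrix.exp_add_of_commute _ _ (((Commute.refl _).smul_left _).smul_right _),
      theta_comm_exp, Matrix.mul_smul, Matrix.mul_one]
  have h2 : NormedSpace.exp (-(w + 2 * Real.pi * Complex.I) • X.ρ) =
      NormedSpace.exp (-w • X.ρ) *
        NormedSpace.exp ((-(2 * Real.pi * Complex.I)) • X.ρ) := by
    rw [neg_add, add_smul,
      Matrix.exp_add_of_commute _ _ (((Commute.refl _).smul_left _).smul_right _)]
  rw [h1, h2, Matrix.mul_smul, Matrix.smul_mul]
  simp only [Matrix.mul_assoc]

end generic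


end Pool.Agent.FLG.Mo
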